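import Mathlib

/-!
# The local ring of the nodal curve and its Milnor K-theory
-/

set_option autoImplicit false
open Function Polynomial

namespace Pool.Agent.Helper83.Node

/-- The coordinate ring of the nodal curve over `F` obtained from the affine line by glueing the
points `0` and `1`: the polynomials `f` with `f(0) = f(1)`. -/
noncomputable def nodalCurve (F : Type*) [Field F] : Subalgebra F F[X] :=
  AlgHom.equalizer (aeval (0 : F)) (aeval (1 : F))

/-- The value `f(0) = f(1)` of a function `f` on the nodal curve at the node. -/
noncomputable def nodeValue (F : Type*) [Field F] : nodalCurve F →ₐ[F] F :=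
  (aeval (0 : F)).comp (nodalCurve F).val

/-- The node: the maximal ideal of the functions on the nodal curve that vanish at `0` (and `1`). -/
noncomputable def node (F : Type*) [Field F] : Ideal (nodalCurve F) := RingHom.ker (nodeValue F)

theorem node_prime (F : Type*) [Field F] : (node F).IsPrime := RingHom.ker_isPrime _

instance (F : Type*) [Field F] : (node F).IsPrime := node_prime F

/-- The local ring of the nodal curve at the node. -/
def NodeRing (F : Type*) [Field F] : Type _ := Localization.AtPrime (node F)

noncomputable instance (F : Type*) [Field F] : CommRing (NodeRing F) :=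
  inferInstanceAs (CommRing (Localization.AtPrime (node F)))

/-- The relations of Milnor K-theory, in the free abelian group on the `n`-tuples of units of the
commutative ring `A`: additivity in every entry (the entries are written multiplicatively), and the
Steinberg relation for consecutive entries with sum `1`. -/
def milnorRelations (n : ℕ) (A : Type*) [CommRing A] : Set (FreeAbelianGroup (Fin n → Aˣ)) :=
  {z | (∃ (a : Fin n → Aˣ) (i : Fin n) (x y : Aˣ),
      z = FreeAbelianGroup.of (update a i (x * y)) - FreeAbelianGroup.of (update a i x)
        - FreeAbelianGroup.of (update a i y)) ∨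
    (∃ (a : Fin n → Aˣ) (i j : Fin n), (i : ℕ) + 1 = j ∧ (a i : A) + a j = 1 ∧
      z = FreeAbelianGroup.of a)}

/-- The Milnor K-group `K_n^M(A)` of the commutative ring `A`: the `n`-fold tensor power (over `ℤ`)
of the group of units, modulo the Steinberg relations. -/
abbrev MilnorK (n : ℕ) (A : Type*) [CommRing A] : Type _ :=
  FreeAbelianGroup (Fin n → Aˣ) ⧸ AddSubgroup.closure (milnorRelations n A)

end Pool.Agent.Helper83.Node
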