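import Mathlib

/-!
# Rational valued Steinberg symbols on local rings with a coefficient field

`S` is a commutative algebra over an infinite field `F` with an `F`-algebra homomorphism
`ev : S → F` such that `s` is a unit as soon as `ev s ≠ 0`.
-/

set_option autoImplicit false
open Function

namespace Pool.Agent.Helper83.Node

section bil

variable {S : Type*} [CommRing S] {g : Sˣ → Sˣ → ℚ}

theorem bil_one_left (h1 : ∀ x x' y, g (x * x') y = g x y + g x' y) (y : Sˣ) : g 1 y = 0 := by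
  have := h1 1 1 y
  rw [one_mul] at this
  linarith

theorem bil_one_right (h2 : ∀ x y y', g x (y * y') = g x y + g x y') (x : Sˣ) : g x 1 = 0 := by
  have := h2 x 1 1
  rw [one_mul] at this
  linarith

theorem bil_inv_left (h1 : ∀ x x' y, g (x * x') y = g x y + g x' y) (x y : Sˣ) :
    g x⁻¹ y = -g x y := by
  have := h1 x x⁻¹ y
  rw [mul_inv_cancel, bil_one_left h1] at this
  linarith

theorem bil_inv_right (h2 : ∀ x y y', g x (y * y') = g x y + g x y') (x y : Sˣ) :
    g x y⁻¹ = -g x y := by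
  have := h2 x y y⁻¹
  rw [mul_inv_cancel, bil_one_right h2] at this
  linarith

theorem bil_div_left (h1 : ∀ x x' y, g (x * x') y = g x y + g x' y) (x x' y : Sˣ) :
    g (x / x') y = g x y - g x' y := by
  rw [div_eq_mul_inv, h1, bil_inv_left h1]; ring

theorem bil_div_right (h2 : ∀ x y y', g x (y * y') = g x y + g x y') (x y y' : Sˣ) :
    g x (y / y') = g x y - g x y' := by
  rw [div_eq_mul_inv, h2, bil_inv_right h2]; ring

theorem bil_neg_right (h2 : ∀ x y y', g x (y * y') = g x y + g x y') (x y : Sˣ) :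
    g x (-y) = g x y := by
  have h := h2 x (-1) (-1)
  rw [neg_one_mul, neg_neg, bil_one_right h2] at h
  rw [← neg_one_mul, h2]
  linarith

variable {F : Type*} [Field F] [Algebra F S] (ev : S →ₐ[F] F)

/-- the unit of a nonzero constant -/
def cu (F : Type*) {S : Type*} [Field F] [CommRing S] [Algebra F S] (u : Fˣ) : Sˣ :=
  Units.map (algebraMap F S : F →* S) u

theorem cu_val (u : Fˣ) : ((cu F u : Sˣ) : S) = algebraMap F S u := rfl

theorem cu_mul (u v : Fˣ) : (cu F (u * v) : Sˣ) = cu F u * cu F v := map_mul _ _ _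

theorem ev_cu (u : Fˣ) : ev ((cu F u : Sˣ) : S) = u := by
  rw [cu_val]
  exact ev.commutes _

theorem ev_unit_ne (x : Sˣ) : ev (x : S) ≠ 0 := by
  have h : IsUnit (ev (x : S)) := x.isUnit.map ev
  exact h.ne_zero

/-- the alternating law for generic entries -/
theorem bil_alt_gen (hev : ∀ s : S, ev s ≠ 0 → IsUnit s)
    (h1 : ∀ x x' y, g (x * x') y = g x y + g x' y)
    (h2 : ∀ x y y', g x (y * y') = g x y + g x y')
    (st : ∀ x y : Sˣ, (x : S) + y = 1 → g x y = 0) (x : Sˣ) (hx : ev (x : S) ≠ 1) :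
    g x x = 0 := by
  have hb : IsUnit (1 - (x : S)) := by
    apply hev
    rw [map_sub, map_one]
    exact sub_ne_zero.mpr (Ne.symm hx)
  obtain ⟨b, hb⟩ := hb
  set c : Sˣ := -(b * x⁻¹) with hc
  have e1 : g x b = 0 := st x b (by rw [hb]; ring)
  have e2 : g x⁻¹ c = 0 := st x⁻¹ c (by
    have hxx : (x : S) * ((x⁻¹ : Sˣ) : S) = 1 := Units.mul_inv x
    rw [hc, Units.val_neg, Units.val_mul, hb]
    linear_combination hxx)
  rw [bil_inv_left h1] at e2
  have e3 : b / c = -x := by
    rw [div_eq_iff_eq_mul, hc]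
    rw [neg_mul_neg, mul_comm b, mul_inv_cancel_left]
  have e4 : g x (-x) = 0 := by
    rw [← e3, bil_div_right h2, e1]
    linarith
  rwa [bil_neg_right h2] at e4

theorem exists_generic [Infinite F] (c : F) (hc : c ≠ 0) :
    ∃ u : F, u ≠ 0 ∧ u ≠ 1 ∧ u ≠ -1 ∧ c * u ≠ 1 ∧ c * u * u ≠ 1 := by
  classical
  open Polynomial in
  set P : F[X] := X * (X - C 1) * (X - C (-1)) * (C c * X - C 1) * (C c * X ^ 2 - C 1) with hP
  have hP0 : P ≠ 0 := by
    have h4 : (Polynomial.C c * Polynomial.X - Polynomial.C 1 : Polynomial F) ≠ 0 := by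
      intro h
      have := congrArg (fun p => Polynomial.coeff p 1) h
      simp [Polynomial.coeff_one] at this
      exact hc this
    have h5 : (Polynomial.C c * Polynomial.X ^ 2 - Polynomial.C 1 : Polynomial F) ≠ 0 := by
      intro h
      have := congrArg (fun p => Polynomial.coeff p 2) h
      simp [Polynomial.coeff_one] at this
      exact hc this
    rw [hP]
    exact mul_ne_zero (mul_ne_zero (mul_ne_zero (mul_ne_zero Polynomial.X_ne_zero
      (Polynomial.X_sub_C_ne_zero _)) (Polynomial.X_sub_C_ne_zero _)) h4) h5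
  by_contra hcon
  push Not at hcon
  apply hP0
  apply Polynomial.funext
  intro u
  rw [Polynomial.eval_zero]
  simp only [hP, Polynomial.eval_mul, Polynomial.eval_sub, Polynomial.eval_X, Polynomial.eval_C,
    Polynomial.eval_pow]
  by_cases h1 : u = 0
  · simp [h1]
  by_cases h2 : u = 1
  · simp [h2]
  by_cases h3 : u = -1
  · simp [h3]
  by_cases h4 : c * u = 1
  · simp [h4]
  have h5 := hcon u h1 h2 h3 h4
  have h6 : c * u ^ 2 - 1 = 0 := by linear_combination h5
  rw [h6, mul_zero]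

/-- the alternating law -/
theorem bil_alt [Infinite F] (hev : ∀ s : S, ev s ≠ 0 → IsUnit s)
    (h1 : ∀ x x' y, g (x * x') y = g x y + g x' y)
    (h2 : ∀ x y y', g x (y * y') = g x y + g x y')
    (st : ∀ x y : Sˣ, (x : S) + y = 1 → g x y = 0) (x : Sˣ) : g x x = 0 := by
  obtain ⟨u, hu0, hu1, -, hu2, hu3⟩ := exists_generic (ev (x : S)) (ev_unit_ne ev x)
  set U : Sˣ := cu F (Units.mk0 u hu0) with hU
  have hevU : ev (U : S) = u := by rw [hU, ev_cu]; rfl
  have e1 : g U U = 0 := bil_alt_gen ev hev h1 h2 st U (by rw [hevU]; exact hu1)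
  have e2 : g (x * U) (x * U) = 0 := bil_alt_gen ev hev h1 h2 st (x * U) (by
    rw [Units.val_mul, map_mul, hevU]; exact hu2)
  have e3 : g (x * U * U) (x * U * U) = 0 := bil_alt_gen ev hev h1 h2 st (x * U * U) (by
    rw [Units.val_mul, Units.val_mul, map_mul, map_mul, hevU]; exact hu3)
  simp only [h1, h2] at e2 e3
  linarith

theorem bil_anti [Infinite F] (hev : ∀ s : S, ev s ≠ 0 → IsUnit s)
    (h1 : ∀ x x' y, g (x * x') y = g x y + g x' y)
    (h2 : ∀ x y y', g x (y * y') = g x y + g x y')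
    (st : ∀ x y : Sˣ, (x : S) + y = 1 → g x y = 0) (x y : Sˣ) : g x y = -g y x := by
  have e1 := bil_alt ev hev h1 h2 st (x * y)
  have e2 := bil_alt ev hev h1 h2 st x
  have e3 := bil_alt ev hev h1 h2 st y
  simp only [h1, h2] at e1
  linarith

end bil

section tri

variable {S : Type*} [CommRing S] {g : Sˣ → Sˣ → Sˣ → ℚ}
  {F : Type*} [Field F] [Algebra F S] (ev : S →ₐ[F] F)

/-- The Steinberg relation with three terms, if `1 - x` is a unit. -/
theorem tri_unit
    (m2 : ∀ x y y' z, g x (y * y') z = g x y z + g x y' z)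
    (m3 : ∀ x y z z', g x y (z * z') = g x y z + g x y z')
    (s12 : ∀ x y z : Sˣ, (x : S) + y = 1 → g x y z = 0)
    (s13 : ∀ x y z : Sˣ, (x : S) + z = 1 → g x y z = 0)
    (s23 : ∀ x y z : Sˣ, (y : S) + z = 1 → g x y z = 0)
    (x y z : Sˣ) (h : (x : S) + y + z = 1) (hs : IsUnit (1 - (x : S))) : g x y z = 0 := by
  obtain ⟨s, hs⟩ := hs
  have hss : (s : S) * ((s⁻¹ : Sˣ) : S) = 1 := Units.mul_inv s
  have e1 : g x s z = 0 := s12 x s z (by rw [hs]; ring)
  have e2 : g x (y / s) s = 0 := s13 x _ s (by rw [hs]; ring)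
  have e3 : g x (y / s) (z / s) = 0 := s23 x _ _ (by
    rw [div_eq_mul_inv, div_eq_mul_inv, Units.val_mul, Units.val_mul]
    linear_combination ((s⁻¹ : Sˣ) : S) * h - ((s⁻¹ : Sˣ) : S) * hs + hss)
  have e4 : g x y z = g x s z + g x (y / s) z := by
    rw [← m2, mul_div_cancel]
  have e5 : g x (y / s) z = g x (y / s) s + g x (y / s) (z / s) := by
    rw [← m3, mul_div_cancel]
  rw [e4, e5, e1, e2, e3]
  ring

/-- The Steinberg relation with three terms. -/
theorem tri_zero [Infinite F] (hev : ∀ s : S, ev s ≠ 0 → IsUnit s)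
    (m1 : ∀ x x' y z, g (x * x') y z = g x y z + g x' y z)
    (m2 : ∀ x y y' z, g x (y * y') z = g x y z + g x y' z)
    (m3 : ∀ x y z z', g x y (z * z') = g x y z + g x y z')
    (s12 : ∀ x y z : Sˣ, (x : S) + y = 1 → g x y z = 0)
    (s13 : ∀ x y z : Sˣ, (x : S) + z = 1 → g x y z = 0)
    (s23 : ∀ x y z : Sˣ, (y : S) + z = 1 → g x y z = 0)
    (x y z : Sˣ) (h : (x : S) + y + z = 1) : g x y z = 0 := by
  by_cases hx : ev (x : S) = 1
  swap
  · exact tri_unit m2 m3 s12 s13 s23 x y z h (hev _ (by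
      rw [map_sub, map_one]; exact sub_ne_zero.mpr (Ne.symm hx)))
  by_cases hy : ev (y : S) = 1
  swap
  · exact tri_unit (g := fun a b c => g b a c) (fun a b b' c => m1 _ _ _ _)
      (fun a b c c' => m3 _ _ _ _) (fun a b c hab => s12 _ _ _ (by rw [add_comm]; exact hab))
      (fun a b c hac => s23 _ _ _ hac) (fun a b c hbc => s13 _ _ _ hbc) y x z
      (by rw [add_comm (y : S)]; exact h) (hev _ (by
      rw [map_sub, map_one]; exact sub_ne_zero.mpr (Ne.symm hy)))
  obtain ⟨u, hu0, hu1, hu2, -, -⟩ := exists_generic (1 : F) one_ne_zero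
  set U : Sˣ := cu F (Units.mk0 u hu0) with hU
  have hevU : ev (U : S) = u := by rw [hU, ev_cu]; rfl
  have hu3 : 1 + u ≠ 0 := fun h => hu2 (by linear_combination h)
  have hA : IsUnit ((x : S) - U) := hev _ (by
    rw [map_sub, hx, hevU]; exact sub_ne_zero.mpr (Ne.symm hu1))
  have hB : IsUnit ((y : S) + U) := hev _ (by
    rw [map_add, hy, hevU]; exact hu3)
  obtain ⟨A, hA⟩ := hA
  obtain ⟨B, hB⟩ := hB
  have hxx : (x : S) * ((x⁻¹ : Sˣ) : S) = 1 := Units.mul_inv x
  have hBB : (B : S) * ((B⁻¹ : Sˣ) : S) = 1 := Units.mul_inv B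
  -- the divisions
  have d1 : ∀ a a' b c, g (a / a') b c = g a b c - g a' b c := fun a a' b c =>
    bil_div_left (g := fun a b => g a b c) (fun _ _ _ => m1 _ _ _ _) a a' b
  have d2 : ∀ a b b' c, g a (b / b') c = g a b c - g a b' c := fun a b b' c =>
    bil_div_right (g := fun a b => g a b c) (fun _ _ _ => m2 _ _ _ _) a b b'
  have d3 : ∀ a b c c', g a b (c / c') = g a b c - g a b c' := fun a b c c' =>
    bil_div_right (g := fun a c => g a b c) (fun _ _ _ => m3 _ _ _ _) a c c'
  have a12 : ∀ a c, g a a c = 0 := fun a c =>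
    bil_alt (g := fun a b => g a b c) ev hev (fun _ _ _ => m1 _ _ _ _) (fun _ _ _ => m2 _ _ _ _)
      (fun _ _ hab => s12 _ _ _ hab) a
  have a13 : ∀ a b, g a b a = 0 := fun a b =>
    bil_alt (g := fun a c => g a b c) ev hev (fun _ _ _ => m1 _ _ _ _) (fun _ _ _ => m3 _ _ _ _)
      (fun _ _ hab => s13 _ _ _ hab) a
  have a23 : ∀ a b, g a b b = 0 := fun a b =>
    bil_alt (g := fun b c => g a b c) ev hev (fun _ _ _ => m2 _ _ _ _) (fun _ _ _ => m3 _ _ _ _)
      (fun _ _ hab => s23 _ _ _ hab) b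
  have t12 : ∀ a b c, g a b c = -g b a c := fun a b c =>
    bil_anti (g := fun a b => g a b c) ev hev (fun _ _ _ => m1 _ _ _ _) (fun _ _ _ => m2 _ _ _ _)
      (fun _ _ hab => s12 _ _ _ hab) a b
  -- the generic symbol
  have e0 : g A B z = 0 := by
    apply tri_unit m2 m3 s12 s13 s23
    · rw [hA, hB]; linear_combination h
    · apply hev
      rw [hA, map_sub, map_one, map_sub, hx, hevU]
      simpa using hu0
  set ρ : Sˣ := (A / x) * (y / B) with hρ
  set w : Sˣ := U / (x * B) with hw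
  have e1 : g (A / x) (U / x) z = 0 := s12 _ _ _ (by
    rw [div_eq_mul_inv, div_eq_mul_inv, Units.val_mul, Units.val_mul, hA]
    linear_combination hxx)
  have e2 : g (y / B) (U / B) z = 0 := s12 _ _ _ (by
    rw [div_eq_mul_inv, div_eq_mul_inv, Units.val_mul, Units.val_mul]
    linear_combination hBB - ((B⁻¹ : Sˣ) : S) * hB)
  have e3 : g x y z = g A B z + g ρ w z := by
    simp only [hρ, hw, m1, m2, d1, d2] at e1 e2 ⊢
    have q1 := a12 x z
    have q2 := a12 B z
    have q3 := t12 x B z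
    have q4 := t12 x y z
    linarith
  -- the rest
  have hwv : (w : S) * ((x : S) * B) = U := by
    have : w * (x * B) = U := by rw [hw, div_mul_cancel]
    rw [← Units.val_mul, ← Units.val_mul, this]
  have hρv : (ρ : S) * ((x : S) * B) = A * y := by
    have : ρ * (x * B) = A * y := by
      rw [hρ, mul_mul_mul_comm, div_mul_cancel, div_mul_cancel]
    rw [← Units.val_mul, ← Units.val_mul, this, Units.val_mul]
  have hcan : ∀ a b : S, a * ((x : S) * B) = b * ((x : S) * B) → a = b := by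
    intro a b hab
    have : a * ((x * B : Sˣ) : S) = b * ((x * B : Sˣ) : S) := by
      rw [Units.val_mul]; exact hab
    exact (Units.mul_left_inj _).mp this
  have hρw : (ρ : S) = (1 - w) + w * z := by
    apply hcan
    rw [hρv]
    linear_combination (1 - z : S) * hwv + y * hA - x * hB - U * h
  have ht : IsUnit (1 - (w : S)) := by
    apply hev
    intro h0
    have h1 := congrArg ev hwv
    rw [map_mul, map_mul, hx, hevU, hB, map_add, hy, hevU] at h1
    rw [map_sub, map_one, sub_eq_zero] at h0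
    rw [← h0] at h1
    apply one_ne_zero (α := F)
    linear_combination h1
  obtain ⟨t, ht⟩ := ht
  have hρρ : (ρ : S) * ((ρ⁻¹ : Sˣ) : S) = 1 := Units.mul_inv ρ
  have e4 : g w t (w * z / ρ) = 0 := s12 _ _ _ (by rw [ht]; ring)
  have e5 : g w (t / ρ) (w * z / ρ) = 0 := s23 _ _ _ (by
    rw [div_eq_mul_inv, div_eq_mul_inv, Units.val_mul, Units.val_mul, Units.val_mul, ht]
    linear_combination (-((ρ⁻¹ : Sˣ) : S)) * hρw + hρρ)
  have e6 : g w ρ z = 0 := by
    simp only [m3, d2, d3] at e4 e5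
    have q1 := a13 w ρ
    have q2 := a23 w ρ
    linarith
  rw [e3, e0, t12, e6]
  ring

end tri

end Pool.Agent.Helper83.Node
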