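import Mathlib
import Pool.Agent.Helper47.Par.Sym
import Pool.Agent.Helper83.Node.Sym

/-!
# Reduction of the symbols on a local ring to the symbols on the coefficient field

Let `V` be a subspace of dimension at most `3` of the `F`-algebra `S`, that contains `1`, and
suppose that the units in `V` generate the group of units.  Then the Milnor K-group of `S` is
generated by the symbols that have at most two entries outside of `F^*`.
-/

set_option autoImplicit false
open Function Module

namespace Pool.Agent.Helper83.Node

/-- A rational valued Steinberg symbol in `n` variables on the units of a commutative ring. -/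
structure RSym (n : ℕ) (S : Type*) [CommRing S] where
  toFun : (Fin n → Sˣ) → ℚ
  map_mul' : ∀ (v : Fin n → Sˣ) (i : Fin n) (x y : Sˣ),
    toFun (update v i (x * y)) = toFun (update v i x) + toFun (update v i y)
  steinberg' : ∀ (v : Fin n → Sˣ) (i j : Fin n), i ≠ j → (v i : S) + v j = 1 → toFun v = 0

namespace RSym

variable {n : ℕ} {S : Type*} [CommRing S] (φ : RSym n S)

instance : CoeFun (RSym n S) (fun _ => (Fin n → Sˣ) → ℚ) := ⟨toFun⟩

theorem map_mul (v : Fin n → Sˣ) (i : Fin n) (x y : Sˣ) :
    φ (update v i (x * y)) = φ (update v i x) + φ (update v i y) := φ.map_mul' v i x y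

theorem map_one (v : Fin n → Sˣ) (i : Fin n) : φ (update v i 1) = 0 := by
  have := φ.map_mul v i 1 1
  rw [one_mul] at this
  linarith

theorem map_inv (v : Fin n → Sˣ) (i : Fin n) (x : Sˣ) :
    φ (update v i x⁻¹) = -φ (update v i x) := by
  have := φ.map_mul v i x x⁻¹
  rw [mul_inv_cancel, map_one] at this
  linarith

theorem map_div (v : Fin n → Sˣ) (i : Fin n) (x y : Sˣ) :
    φ (update v i (x / y)) = φ (update v i x) - φ (update v i y) := by
  rw [div_eq_mul_inv, map_mul, map_inv]; ring

theorem steinberg (v : Fin n → Sˣ) {i j : Fin n} (hij : i ≠ j) (h : (v i : S) + v j = 1) :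
    φ v = 0 := φ.steinberg' v i j hij h

theorem map_mul2 (v : Fin n → Sˣ) {i j : Fin n} (hij : i ≠ j) (x x' y : Sˣ) :
    φ (update (update v i (x * x')) j y)
      = φ (update (update v i x) j y) + φ (update (update v i x') j y) := by
  rw [update_comm hij, map_mul, update_comm hij.symm, update_comm hij.symm]

variable {F : Type*} [Field F] [Infinite F] [Algebra F S] (ev : S →ₐ[F] F)
  (hev : ∀ s : S, ev s ≠ 0 → IsUnit s)

include hev in
theorem alt (v : Fin n → Sˣ) {i j : Fin n} (hij : i ≠ j) (h : v i = v j) : φ v = 0 := by
  have := bil_alt (g := fun x y => φ (update (update v i x) j y)) ev hev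
    (fun x x' y => φ.map_mul2 v hij x x' y) (fun x y y' => φ.map_mul _ j y y')
    (fun x y hxy => φ.steinberg _ hij (by
      rw [update_self, update_of_ne hij, update_self]; exact hxy)) (v j)
  rwa [← h, update_eq_self, h, update_eq_self] at this

include hev in
theorem steinberg3 (v : Fin n → Sˣ) {i j k : Fin n} (hij : i ≠ j) (hik : i ≠ k) (hjk : j ≠ k)
    (h : (v i : S) + v j + v k = 1) : φ v = 0 := by
  have := tri_zero (g := fun x y z => φ (update (update (update v i x) j y) k z)) ev hev
    (fun x x' y z => by
      rw [update_comm hij, update_comm hik, map_mul, update_comm hik.symm, update_comm hik.symm,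
        update_comm hij.symm, update_comm hij.symm])
    (fun x y y' z => φ.map_mul2 _ hjk y y' z) (fun x y z z' => φ.map_mul _ k z z')
    (fun x y z hxy => φ.steinberg _ hij (by
      rw [update_of_ne hik, update_of_ne hij, update_self, update_of_ne hjk, update_self]
      exact hxy))
    (fun x y z hxz => φ.steinberg _ hik (by
      rw [update_self, update_of_ne hik, update_of_ne hij, update_self]
      exact hxz))
    (fun x y z hyz => φ.steinberg _ hjk (by
      rw [update_self, update_of_ne hjk, update_self]
      exact hyz)) (v i) (v j) (v k) h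
  simpa only [update_eq_self] using this

include hev in
/-- The Steinberg relation with at most three terms. -/
theorem steinberg_sum (J : Finset (Fin n)) (hJ : J.card ≤ 3) (v : Fin n → Sˣ)
    (h : ∑ i ∈ J, (v i : S) = 1) : φ v = 0 := by
  classical
  have : Nontrivial S := ev.toRingHom.domain_nontrivial
  interval_cases hc : J.card
  · rw [Finset.card_eq_zero] at hc
    subst hc
    rw [Finset.sum_empty] at h
    exact absurd h zero_ne_one
  · obtain ⟨a, rfl⟩ := Finset.card_eq_one.mp hc
    rw [Finset.sum_singleton] at h
    have h1 : v a = 1 := Units.ext h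
    have := φ.map_one v a
    rwa [← h1, update_eq_self] at this
  · obtain ⟨a, b, hab, rfl⟩ := Finset.card_eq_two.mp hc
    rw [Finset.sum_pair hab] at h
    exact φ.steinberg v hab h
  · obtain ⟨a, b, c, hab, hac, hbc, rfl⟩ := Finset.card_eq_three.mp hc
    rw [Finset.sum_insert (by simp [hab, hac]), Finset.sum_pair hbc, ← add_assoc] at h
    exact φ.steinberg3 ev hev v hab hac hbc h

/-- vanishing on generators implies vanishing -/
theorem vanish_closure {P C : Set Sˣ} (T : Finset (Fin n))
    (h : ∀ v : Fin n → Sˣ, (∀ i ∈ T, v i ∈ P) → (∀ i ∉ T, v i ∈ C) → φ v = 0)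
    (v : Fin n → Sˣ) (hv : ∀ i ∈ T, v i ∈ Subgroup.closure P) (hv2 : ∀ i ∉ T, v i ∈ C) :
    φ v = 0 := by
  classical
  have key : ∀ (s : Finset (Fin n)), s ⊆ T → ∀ (v : Fin n → Sˣ),
      (∀ i ∈ s, v i ∈ Subgroup.closure P) → (∀ i ∈ T, i ∉ s → v i ∈ P) →
      (∀ i ∉ T, v i ∈ C) → φ v = 0 := by
    intro s
    induction s using Finset.induction_on with
    | empty => exact fun _ v _ h2 h3 => h v (fun i hi => h2 i hi (Finset.notMem_empty i)) h3
    | insert a s ha ih =>
      intro hs v h1 h2 h3
      have haT : a ∈ T := hs (Finset.mem_insert_self a s)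
      have hsT : s ⊆ T := fun i hi => hs (Finset.mem_insert_of_mem hi)
      have h5 : v a ∈ Subgroup.closure P := h1 a (Finset.mem_insert_self a s)
      have h4 : ∀ x ∈ Subgroup.closure P, φ (update v a x) = 0 := by
        intro x hx
        induction hx using Subgroup.closure_induction with
        | mem x hx =>
          apply ih hsT
          · intro i hi
            have : i ≠ a := fun hia => ha (hia ▸ hi)
            rw [update_of_ne this]
            exact h1 i (Finset.mem_insert_of_mem hi)
          · intro i hiT hi
            by_cases hia : i = a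
            · subst hia; rw [update_self]; exact hx
            · rw [update_of_ne hia]
              exact h2 i hiT (by simp [hia, hi])
          · intro i hi
            have : i ≠ a := fun hia => hi (hia ▸ haT)
            rw [update_of_ne this]
            exact h3 i hi
        | one => exact φ.map_one _ _
        | mul x y _ _ hx hy => rw [map_mul, hx, hy, add_zero]
        | inv x _ hx => rw [map_inv, hx, neg_zero]
      have := h4 _ h5
      rwa [update_eq_self] at this
  exact key T subset_rfl v hv (fun i hi hi' => absurd hi hi') hv2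

end RSym

section main

variable {n : ℕ} {S : Type*} [CommRing S] {F : Type*} [Field F] [Infinite F] [Algebra F S]
  (ev : S →ₐ[F] F) (hev : ∀ s : S, ev s ≠ 0 → IsUnit s)

/-- the nonzero constants -/
def consts (F S : Type*) [Field F] [CommRing S] [Algebra F S] : Set Sˣ :=
  Set.range (cu F : Fˣ → Sˣ)

include hev in
/-- A linear relation between at most four of `1` and the entries of a symbol shows that the symbol
vanishes, if the symbols with more constant entries vanish. -/
theorem rel_zero (φ : RSym n S) (T : Finset (Fin n))
    (ih : ∀ i ∈ T, ∀ v : Fin n → Sˣ, (∀ j ∉ T.erase i, v j ∈ consts F S) → φ v = 0)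
    (v : Fin n → Sˣ) (hv : ∀ i ∉ T, v i ∈ consts F S) (J : Finset (Fin n)) (hJT : J ⊆ T)
    (hJ : J.card ≤ 3) (c : Fin n → F) (hc : ∀ i ∈ J, c i ≠ 0) (e : Sˣ)
    (he : e = 1 ∨ ∃ j ∉ J, e = v j) (hsum : ∑ i ∈ J, c i • (v i : S) = e) : φ v = 0 := by
  classical
  set d : Fin n → Sˣ := fun i => if h : c i = 0 then 1 else cu F (Units.mk0 (c i) h) with hd
  have hdc : ∀ i, d i ∈ consts F S := by
    intro i
    rw [hd]
    by_cases h : c i = 0
    · simp only [dif_pos h]
      exact ⟨1, by simp [cu]⟩
    · simp only [dif_neg h]
      exact ⟨_, rfl⟩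
  have hdv : ∀ i ∈ J, ∀ x : S, c i • x = (d i : S) * x := by
    intro i hi x
    rw [hd]
    simp only [dif_neg (hc i hi)]
    rw [cu_val, Algebra.smul_def]
    rfl
  have key : ∀ K : Finset (Fin n), K ⊆ J →
      φ (fun i => if i ∈ K then d i * v i / e else v i) = φ v := by
    intro K
    induction K using Finset.induction_on with
    | empty => intro _; simp
    | insert b K hb ihK =>
      intro hK
      have hbJ : b ∈ J := hK (Finset.mem_insert_self b K)
      have ihK' := ihK fun i hi => hK (Finset.mem_insert_of_mem hi)
      set z : Fin n → Sˣ := fun i => if i ∈ K then d i * v i / e else v i with hz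
      have e1 : (fun i => if i ∈ insert b K then d i * v i / e else v i)
          = update z b (d b * v b / e) := by
        funext i
        by_cases hi : i = b
        · subst hi; simp
        · simp [hi, hz]
      have e2 : update z b (v b) = z := by
        funext i
        by_cases hi : i = b
        · subst hi; simp [hb, hz]
        · rw [update_of_ne hi]
      have e3 : φ (update z b e) = 0 := by
        rcases he with rfl | ⟨j, hj, rfl⟩
        · exact φ.map_one _ _
        · have hjb : b ≠ j := fun h => hj (h ▸ hbJ)
          apply φ.alt ev hev _ hjb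
          have hjK : j ∉ K := fun h => hj (hK (Finset.mem_insert_of_mem h))
          rw [update_self, update_of_ne hjb.symm, hz]
          simp [hjK]
      have e4 : φ (update z b (d b)) = 0 := by
        apply ih b (hJT hbJ)
        intro i hi
        by_cases hib : i = b
        · subst hib
          rw [update_self]
          exact hdc i
        · rw [update_of_ne hib, hz]
          have hiT : i ∉ T := fun h => hi (Finset.mem_erase.mpr ⟨hib, h⟩)
          have hiK : i ∉ K := fun h => hiT (hJT (hK (Finset.mem_insert_of_mem h)))
          simp only [if_neg hiK]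
          exact hv i hiT
      rw [e1, φ.map_div, φ.map_mul, e2, e3, e4, ihK']
      ring
  rw [← key J subset_rfl]
  apply φ.steinberg_sum ev hev J hJ
  have hee : (e : S) * ((e⁻¹ : Sˣ) : S) = 1 := Units.mul_inv e
  have h1 : ∀ i ∈ J, (((if i ∈ J then d i * v i / e else v i : Sˣ)) : S)
      = (c i • (v i : S)) * ((e⁻¹ : Sˣ) : S) := by
    intro i hi
    rw [if_pos hi, hdv i hi, div_eq_mul_inv, Units.val_mul, Units.val_mul]
  rw [Finset.sum_congr rfl h1, ← Finset.sum_mul, hsum, hee]

omit [Infinite F] in
/-- The symbols with at most two nonconstant entries vanish if all symbols in `n` variables on the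
field of constants vanish. -/
theorem base_zero (hF : Helper47.Par.Van n F) (φ : RSym (n + 2) S) (T : Finset (Fin (n + 2)))
    (hT : T.card ≤ 2) (v : Fin (n + 2) → Sˣ) (hv : ∀ i ∉ T, v i ∈ consts F S) : φ v = 0 := by
  classical
  obtain ⟨T', hTT', hT'⟩ := Finset.exists_superset_card_eq hT (by simp)
  have hcard : Fintype.card {l : Fin (n + 2) // l ∉ T'} = Fintype.card (Fin n) := by
    rw [Fintype.card_subtype_compl, Fintype.card_coe, hT', Fintype.card_fin, Fintype.card_fin]
    rfl
  set e : {l : Fin (n + 2) // l ∉ T'} ≃ Fin n := Fintype.equivOfCardEq hcard with he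
  set w : (Fin n → Fˣ) → Fin (n + 2) → Sˣ :=
    fun a l => if h : l ∈ T' then v l else cu F (a (e ⟨l, h⟩)) with hw
  have hwu : ∀ (a : Fin n → Fˣ) (k : Fin n) (x : Fˣ),
      w (update a k x) = update (w a) (e.symm k : Fin (n + 2)) (cu F x) := by
    intro a k x
    funext l
    by_cases hl : l ∈ T'
    · have hne : l ≠ (e.symm k : Fin (n + 2)) := fun h => (e.symm k).2 (h ▸ hl)
      rw [update_of_ne hne]
      simp only [hw, dif_pos hl]
    · by_cases hlk : e ⟨l, hl⟩ = k
      · have hle : l = (e.symm k : Fin (n + 2)) := by rw [← hlk]; simp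
        simp only [hw, dif_neg hl]
        rw [hlk, update_self, hle, update_self]
      · have hne : l ≠ (e.symm k : Fin (n + 2)) := by
          intro h
          apply hlk
          have : (⟨l, hl⟩ : {l : Fin (n + 2) // l ∉ T'}) = e.symm k := Subtype.ext h
          rw [this, Equiv.apply_symm_apply]
        rw [update_of_ne hne]
        simp only [hw, dif_neg hl]
        rw [update_of_ne hlk]
  set ψ : Helper47.Par.Sym n F ℚ :=
    { toFun := fun a => φ (w a)
      map_mul' := by
        intro a k x y
        rw [hwu, hwu, hwu, cu_mul, φ.map_mul]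
      steinberg' := by
        intro a i j hij h
        have hi : ∀ i : Fin n, w a (e.symm i : Fin (n + 2)) = cu F (a i) := by
          intro i
          simp only [hw]
          rw [dif_neg (e.symm i).2]
          simp
        refine φ.steinberg (w a) (i := (e.symm i : Fin (n + 2))) (j := (e.symm j : Fin (n + 2)))
          (fun h => hij (e.symm.injective (Subtype.ext h))) ?_
        rw [hi, hi, cu_val, cu_val, ← map_add, h, map_one] } with hψ
  have hv' : ∀ l : {l : Fin (n + 2) // l ∉ T'}, ∃ u : Fˣ, cu F u = v l := fun l =>
    hv l (fun h => l.2 (hTT' h))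
  choose u hu using hv'
  have h1 := hF ψ (fun k => u (e.symm k))
  have h2 : w (fun k => u (e.symm k)) = v := by
    funext l
    by_cases hl : l ∈ T'
    · simp only [hw, dif_pos hl]
    · simp only [hw, dif_neg hl]
      rw [Equiv.symm_apply_apply, hu]
  have h3 : φ (w (fun k => u (e.symm k))) = 0 := h1
  rwa [h2] at h3

include hev in
/-- If the units in a subspace of dimension at most `3`, which contains `1`, generate the units of
`S`, and all symbols in `n` variables on the field of constants vanish, then all symbols in `n + 2`
variables on `S` vanish. -/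
theorem van_ring (V : Submodule F S) [FiniteDimensional F V] (hV : finrank F V ≤ 3)
    (hV1 : (1 : S) ∈ V) (hgen : ∀ x : Sˣ, x ∈ Subgroup.closure {p : Sˣ | (p : S) ∈ V})
    (hF : Helper47.Par.Van n F) (φ : RSym (n + 2) S) (v : Fin (n + 2) → Sˣ) : φ v = 0 := by
  classical
  have : Nontrivial S := ev.toRingHom.domain_nontrivial
  have claim : ∀ (k : ℕ) (T : Finset (Fin (n + 2))), T.card = k →
      ∀ v : Fin (n + 2) → Sˣ, (∀ i ∉ T, v i ∈ consts F S) → φ v = 0 := by
    intro k
    induction k with
    | zero => exact fun T hT v hv => base_zero hF φ T (by omega) v hv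
    | succ k ihk =>
      intro T hT v hv
      by_cases hk : T.card ≤ 2
      · exact base_zero hF φ T hk v hv
      have ih : ∀ i ∈ T, ∀ v : Fin (n + 2) → Sˣ, (∀ j ∉ T.erase i, v j ∈ consts F S) →
          φ v = 0 := fun i hi v hv => ihk (T.erase i) (by
            rw [Finset.card_erase_of_mem hi, hT]; rfl) v hv
      refine φ.vanish_closure (P := {p : Sˣ | (p : S) ∈ V}) (C := consts F S) T ?_ v
        (fun i _ => hgen _) hv
      clear hv v
      intro v hvT hv
      obtain ⟨T3, hT3, hT3c⟩ := Finset.exists_subset_card_eq (show 3 ≤ T.card by omega)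
      -- a linear relation
      have hdep : ¬ LinearIndependent F (fun o : Option T3 =>
          (o.elim (⟨1, hV1⟩ : V) fun i => ⟨v i, hvT i (hT3 i.2)⟩ : V)) := by
        intro hli
        have := hli.fintype_card_le_finrank
        rw [Fintype.card_option, Fintype.card_coe, hT3c] at this
        omega
      obtain ⟨g, hg, o0, ho0⟩ := Fintype.not_linearIndependent_iff.mp hdep
      rw [Fintype.sum_option] at hg
      set c : Fin (n + 2) → F := fun i => if h : i ∈ T3 then g (some ⟨i, h⟩) else 0 with hc
      have hrel : g none • (1 : S) + ∑ i ∈ T3, c i • (v i : S) = 0 := by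
        have h1 := congrArg (Subtype.val : V → S) hg
        rw [Submodule.coe_zero] at h1
        rw [← h1]
        push_cast
        simp only [Option.elim_none, Option.elim_some]
        congr 1
        rw [← Finset.sum_coe_sort T3 (fun i => c i • (v i : S))]
        refine Finset.sum_congr rfl fun i _ => ?_
        simp only [hc, dif_pos i.2]
      have hfil : ∀ J : Finset (Fin (n + 2)),
          ∑ i ∈ J.filter (fun i => c i ≠ 0), c i • (v i : S) = ∑ i ∈ J, c i • (v i : S) := by
        intro J
        rw [Finset.sum_filter]
        refine Finset.sum_congr rfl fun i _ => ?_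
        by_cases h : c i = 0
        · simp [h]
        · simp [h]
      by_cases hg0 : g none = 0
      · -- the relation does not involve `1`
        have hj : ∃ j ∈ T3, c j ≠ 0 := by
          rcases o0 with _ | j
          · exact absurd hg0 ho0
          · exact ⟨j, j.2, by simp only [hc, dif_pos j.2]; exact ho0⟩
        obtain ⟨j, hjT3, hj⟩ := hj
        rw [hg0, zero_smul, zero_add, ← Finset.add_sum_erase T3 _ hjT3] at hrel
        refine rel_zero ev hev φ T ih v hv ((T3.erase j).filter fun i => c i ≠ 0)
          (fun i hi => hT3 (Finset.mem_of_mem_erase (Finset.mem_filter.mp hi).1)) ?_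
          (fun i => -(c j)⁻¹ * c i) ?_ (v j) (Or.inr ⟨j, ?_, rfl⟩) ?_
        · refine (Finset.card_filter_le _ _).trans ((Finset.card_erase_le).trans hT3c.le)
        · intro i hi
          exact mul_ne_zero (neg_ne_zero.mpr (inv_ne_zero hj)) (Finset.mem_filter.mp hi).2
        · intro h
          exact Finset.notMem_erase j T3 (Finset.mem_filter.mp h).1
        · have h1 : ∑ i ∈ (T3.erase j).filter (fun i => c i ≠ 0), (-(c j)⁻¹ * c i) • (v i : S)
              = (-(c j)⁻¹) • ∑ i ∈ (T3.erase j).filter (fun i => c i ≠ 0), c i • (v i : S) := by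
            rw [Finset.smul_sum]
            refine Finset.sum_congr rfl fun i _ => ?_
            rw [mul_smul]
          rw [h1, hfil, eq_neg_of_add_eq_zero_right hrel, smul_neg, neg_smul, neg_neg, ← mul_smul,
            inv_mul_cancel₀ hj, one_smul]
      · -- the relation involves `1`
        refine rel_zero ev hev φ T ih v hv (T3.filter fun i => c i ≠ 0)
          (fun i hi => hT3 (Finset.mem_filter.mp hi).1) ?_
          (fun i => -(g none)⁻¹ * c i) ?_ 1 (Or.inl rfl) ?_
        · exact (Finset.card_filter_le _ _).trans hT3c.le
        · intro i hi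
          exact mul_ne_zero (neg_ne_zero.mpr (inv_ne_zero hg0)) (Finset.mem_filter.mp hi).2
        · have h1 : ∑ i ∈ T3.filter (fun i => c i ≠ 0), (-(g none)⁻¹ * c i) • (v i : S)
              = (-(g none)⁻¹) • ∑ i ∈ T3.filter (fun i => c i ≠ 0), c i • (v i : S) := by
            rw [Finset.smul_sum]
            refine Finset.sum_congr rfl fun i _ => ?_
            rw [mul_smul]
          rw [h1, hfil, eq_neg_of_add_eq_zero_right hrel, smul_neg, neg_smul, neg_neg, ← mul_smul,
            inv_mul_cancel₀ hg0, one_smul, Units.val_one]
  exact claim (Finset.univ : Finset (Fin (n + 2))).card Finset.univ rfl v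
    (fun i hi => absurd (Finset.mem_univ i) hi)

end main

end Pool.Agent.Helper83.Node
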