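import Mathlib
import Pool.Agent.Helper83.Node.Defs

/-!
# Generators of the group of units of the local ring of the nodal curve

Over an algebraically closed field the units of the local ring of the nodal curve are generated by
the polynomials of degree at most `3`.
-/

set_option autoImplicit false
open Function Polynomial Module

namespace Pool.Agent.Helper83.Node

variable {F : Type*} [Field F]

theorem mem_nodalCurve {f : F[X]} : f ∈ nodalCurve F ↔ f.eval 0 = f.eval 1 := by
  rw [nodalCurve, AlgHom.mem_equalizer, coe_aeval_eq_eval, coe_aeval_eq_eval]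

theorem evB_apply (a : nodalCurve F) : nodeValue F a = (a : F[X]).eval 0 := by
  rw [nodeValue, AlgHom.comp_apply, Subalgebra.coe_val, coe_aeval_eq_eval]

theorem mem_node {a : nodalCurve F} : a ∈ node F ↔ (a : F[X]).eval 0 = 0 := by
  rw [node, RingHom.mem_ker, evB_apply]

theorem mem_primeCompl {a : nodalCurve F} :
    a ∈ (node F).primeCompl ↔ (a : F[X]).eval 0 ≠ 0 := by
  rw [Ideal.mem_primeCompl_iff, mem_node]

/-- `X ^ 2 - X` -/
noncomputable def E1 (F : Type*) [Field F] : nodalCurve F :=
  ⟨X ^ 2 - X, by rw [mem_nodalCurve]; simp⟩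

/-- `X ^ 3 - X` -/
noncomputable def E2 (F : Type*) [Field F] : nodalCurve F :=
  ⟨X ^ 3 - X, by rw [mem_nodalCurve]; simp⟩

theorem eq_comb (a : nodalCurve F) (h : (a : F[X]).natDegree ≤ 3) :
    a = (a : F[X]).coeff 0 • (1 : nodalCurve F) + (a : F[X]).coeff 2 • E1 F
      + (a : F[X]).coeff 3 • E2 F := by
  have h1 : (a : F[X]) = C ((a : F[X]).coeff 0) + C ((a : F[X]).coeff 1) * X
      + C ((a : F[X]).coeff 2) * X ^ 2 + C ((a : F[X]).coeff 3) * X ^ 3 := by
    conv_lhs => rw [Polynomial.as_sum_range_C_mul_X_pow' (a : F[X]) (show _ < 4 by omega)]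
    rw [Finset.sum_range_succ, Finset.sum_range_succ, Finset.sum_range_succ,
      Finset.sum_range_succ, Finset.sum_range_zero]
    simp
  have h2 : (a : F[X]).coeff 1 + (a : F[X]).coeff 2 + (a : F[X]).coeff 3 = 0 := by
    have h3 := a.2
    rw [mem_nodalCurve, h1] at h3
    simp only [eval_add, eval_mul, eval_C, eval_X, eval_pow] at h3
    linear_combination -h3
  apply Subtype.ext
  have h4 : (((a : F[X]).coeff 0 • (1 : nodalCurve F) + (a : F[X]).coeff 2 • E1 F
      + (a : F[X]).coeff 3 • E2 F : nodalCurve F) : F[X])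
      = C ((a : F[X]).coeff 0) + C ((a : F[X]).coeff 2) * (X ^ 2 - X)
      + C ((a : F[X]).coeff 3) * (X ^ 3 - X) := by
    simp only [Subalgebra.coe_add, Subalgebra.coe_smul, Subalgebra.coe_one, E1, E2,
      smul_eq_C_mul, mul_one]
  rw [h4]
  have h5 : (C ((a : F[X]).coeff 1) : F[X])
      = -(C ((a : F[X]).coeff 2) + C ((a : F[X]).coeff 3)) := by
    rw [← C_add, ← C_neg]
    congr 1
    linear_combination h2
  conv_lhs => rw [h1, h5]
  ring

/-- two roots of a polynomial over an algebraically closed field -/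
theorem two_roots [IsAlgClosed F] (g : F[X]) (hg : 2 ≤ g.natDegree) :
    ∃ w g1 : F[X], g = w * g1 ∧ w.natDegree = 2 ∧ g.natDegree = g1.natDegree + 2 := by
  have hgne : g ≠ 0 := by
    rintro rfl
    simp at hg
  obtain ⟨a, ha⟩ := IsAlgClosed.exists_root g (by
    intro h
    rw [degree_eq_natDegree hgne] at h
    have : g.natDegree = 0 := by exact_mod_cast h
    omega)
  obtain ⟨g0, hg0⟩ := dvd_iff_isRoot.mpr ha
  have hg0ne : g0 ≠ 0 := by
    rintro rfl
    rw [mul_zero] at hg0
    exact hgne hg0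
  have hdeg0 : g.natDegree = g0.natDegree + 1 := by
    rw [hg0, natDegree_mul (X_sub_C_ne_zero a) hg0ne, natDegree_X_sub_C, add_comm]
  obtain ⟨b, hb⟩ := IsAlgClosed.exists_root g0 (by
    intro h
    rw [degree_eq_natDegree hg0ne] at h
    have : g0.natDegree = 0 := by exact_mod_cast h
    omega)
  obtain ⟨g1, hg1⟩ := dvd_iff_isRoot.mpr hb
  have hg1ne : g1 ≠ 0 := by
    rintro rfl
    rw [mul_zero] at hg1
    exact hg0ne hg1
  have hdeg1 : g0.natDegree = g1.natDegree + 1 := by
    rw [hg1, natDegree_mul (X_sub_C_ne_zero b) hg1ne, natDegree_X_sub_C, add_comm]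
  refine ⟨(X - C a) * (X - C b), g1, ?_, ?_, by omega⟩
  · rw [hg0, hg1, mul_assoc]
  · rw [natDegree_mul (X_sub_C_ne_zero a) (X_sub_C_ne_zero b), natDegree_X_sub_C,
      natDegree_X_sub_C]

section loc

variable (S : Type*) [CommRing S] [Algebra (nodalCurve F) S] [Algebra F S]
  [IsScalarTower F (nodalCurve F) S] [IsLocalization.AtPrime S (node F)]

variable (F) in
/-- evaluation at the node -/
noncomputable def evN : S →ₐ[F] F :=
  IsLocalization.liftAlgHom (M := (node F).primeCompl) (S := S) (f := nodeValue F) (by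
    intro y
    rw [isUnit_iff_ne_zero, evB_apply]
    exact mem_primeCompl.mp y.2)

theorem evN_algebraMap (a : nodalCurve F) :
    evN F S (algebraMap (nodalCurve F) S a) = (a : F[X]).eval 0 := by
  rw [← evB_apply]
  exact IsLocalization.lift_eq _ a

theorem isUnit_of_evN (s : S) (hs : evN F S s ≠ 0) : IsUnit s := by
  obtain ⟨a, b, rfl⟩ := IsLocalization.exists_mk'_eq (node F).primeCompl s
  rw [IsLocalization.AtPrime.isUnit_mk'_iff S (node F), mem_primeCompl]
  intro h0
  apply hs
  have h1 : evN F S (IsLocalization.mk' S a b) * evN F S (algebraMap (nodalCurve F) S b) = 0 := by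
    rw [← map_mul, IsLocalization.mk'_spec, evN_algebraMap, h0]
  rw [evN_algebraMap] at h1
  exact (mul_eq_zero.mp h1).resolve_right (mem_primeCompl.mp b.2)

/-- the unit defined by a function on the nodal curve that does not vanish at the node -/
noncomputable def pu (a : nodalCurve F) (h : (a : F[X]).eval 0 ≠ 0) : Sˣ :=
  (IsLocalization.map_units S (⟨a, mem_primeCompl.mpr h⟩ : (node F).primeCompl)).unit

omit [Algebra F S] [IsScalarTower F (nodalCurve F) S] in
theorem pu_val (a : nodalCurve F) (h : (a : F[X]).eval 0 ≠ 0) :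
    ((pu S a h : Sˣ) : S) = algebraMap (nodalCurve F) S a := rfl

/-- the space of the polynomials of degree at most `3` -/
noncomputable def V3 (F : Type*) [Field F] (S : Type*) [CommRing S] [Algebra (nodalCurve F) S]
    [Algebra F S] : Submodule F S :=
  Submodule.span F (Set.range ![1, algebraMap (nodalCurve F) S (E1 F),
    algebraMap (nodalCurve F) S (E2 F)])

instance fd_V3 (F : Type*) [Field F] (S : Type*) [CommRing S] [Algebra (nodalCurve F) S]
    [Algebra F S] : FiniteDimensional F (V3 F S) :=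
  FiniteDimensional.span_of_finite F (Set.finite_range _)

theorem finrank_V3 (F : Type*) [Field F] (S : Type*) [CommRing S] [Algebra (nodalCurve F) S]
    [Algebra F S] : finrank F (V3 F S) ≤ 3 := (finrank_range_le_card _).trans (by simp)

theorem one_mem_V3 (F : Type*) [Field F] (S : Type*) [CommRing S] [Algebra (nodalCurve F) S]
    [Algebra F S] : (1 : S) ∈ V3 F S := Submodule.subset_span ⟨0, rfl⟩

omit [IsLocalization.AtPrime S (node F)] in
theorem algebraMap_mem_V3 (a : nodalCurve F) (h : (a : F[X]).natDegree ≤ 3) :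
    algebraMap (nodalCurve F) S a ∈ V3 F S := by
  have hsm : ∀ (c : F) (b : nodalCurve F), algebraMap (nodalCurve F) S (c • b)
      = c • algebraMap (nodalCurve F) S b := fun c b =>
    map_smul (IsScalarTower.toAlgHom F (nodalCurve F) S) c b
  rw [eq_comb a h, map_add, map_add, hsm, hsm, hsm, map_one]
  exact add_mem (add_mem ((V3 F S).smul_mem _ (one_mem_V3 F S))
    ((V3 F S).smul_mem _ (Submodule.subset_span ⟨1, rfl⟩)))
    ((V3 F S).smul_mem _ (Submodule.subset_span ⟨2, rfl⟩))

theorem pu_mem_closure [IsAlgClosed F] : ∀ (d : ℕ) (g : F[X]) (hg : g ∈ nodalCurve F)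
    (h0 : g.eval 0 ≠ 0), g.natDegree ≤ d →
    pu S ⟨g, hg⟩ h0 ∈ Subgroup.closure {p : Sˣ | (p : S) ∈ V3 F S} := by
  intro d
  induction d with
  | zero =>
    intro g hg h0 hd
    exact Subgroup.subset_closure (algebraMap_mem_V3 S ⟨g, hg⟩ (show g.natDegree ≤ 3 by omega))
  | succ d ih =>
    intro g hg h0 hd
    by_cases hd3 : g.natDegree ≤ 3
    · exact Subgroup.subset_closure (algebraMap_mem_V3 S ⟨g, hg⟩ hd3)
    obtain ⟨w, g1, hgw, hwdeg, hgdeg⟩ := two_roots g (by omega)
    obtain ⟨w0, hw0⟩ : ∃ w0, w.eval 0 = w0 := ⟨_, rfl⟩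
    obtain ⟨w1, hw1⟩ : ∃ w1, w.eval 1 = w1 := ⟨_, rfl⟩
    have hg' : w0 * g1.eval 0 = w1 * g1.eval 1 := by
      have := hg
      rw [mem_nodalCurve, hgw, eval_mul, eval_mul, hw0, hw1] at this
      exact this
    have h0' : w0 * g1.eval 0 ≠ 0 := by
      have := h0
      rw [hgw, eval_mul, hw0] at this
      exact this
    have hw0n : w0 ≠ 0 := left_ne_zero_of_mul h0'
    have hg10 : g1.eval 0 ≠ 0 := right_ne_zero_of_mul h0'
    have hw1n : w1 ≠ 0 := left_ne_zero_of_mul (hg' ▸ h0')
    by_cases hww : w0 = w1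
    · have hwm : w ∈ nodalCurve F := by rw [mem_nodalCurve, hw0, hw1, hww]
      have hw0' : w.eval 0 ≠ 0 := by rw [hw0]; exact hw0n
      have hg1m : g1 ∈ nodalCurve F := by
        rw [mem_nodalCurve]
        rw [← hww] at hg'
        exact mul_left_cancel₀ hw0n hg'
      have e : pu S ⟨g, hg⟩ h0 = pu S ⟨w, hwm⟩ hw0' * pu S ⟨g1, hg1m⟩ hg10 := by
        apply Units.ext
        rw [Units.val_mul, pu_val, pu_val, pu_val, ← map_mul]
        congr 1
        exact Subtype.ext hgw
      rw [e]
      exact mul_mem (ih w hwm hw0' (by omega)) (ih g1 hg1m hg10 (by omega))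
    · obtain ⟨δ, hδ⟩ : ∃ δ, δ = w0 - w1 := ⟨_, rfl⟩
      obtain ⟨L, hL⟩ : ∃ L : F[X], L = C δ * X - C w0 := ⟨_, rfl⟩
      obtain ⟨L', hL'⟩ : ∃ L' : F[X], L' = C δ * X + C w1 := ⟨_, rfl⟩
      have hL0 : L.eval 0 = -w0 := by simp [hL]
      have hL1 : L.eval 1 = -w1 := by
        simp only [hL, eval_sub, eval_mul, eval_C, eval_X, mul_one, hδ]; ring
      have hL'0 : L'.eval 0 = w1 := by simp [hL']
      have hL'1 : L'.eval 1 = w0 := by
        simp only [hL', eval_add, eval_mul, eval_C, eval_X, mul_one, hδ]; ring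
      have hLdeg : L.natDegree ≤ 1 := by
        rw [hL, sub_eq_add_neg, ← C_neg]
        exact natDegree_linear_le
      have hL'deg : L'.natDegree ≤ 1 := by
        rw [hL']
        exact natDegree_linear_le
      -- the three functions
      have q3m : w * L' ∈ nodalCurve F := by
        rw [mem_nodalCurve, eval_mul, eval_mul, hL'0, hL'1, hw0, hw1]
        exact mul_comm _ _
      have q30 : (w * L').eval 0 ≠ 0 := by
        rw [eval_mul, hL'0, hw0]
        exact mul_ne_zero hw0n hw1n
      have q2m : L * L' ∈ nodalCurve F := by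
        rw [mem_nodalCurve, eval_mul, eval_mul, hL'0, hL'1, hL0, hL1]
        ring
      have q20 : (L * L').eval 0 ≠ 0 := by
        rw [eval_mul, hL'0, hL0]
        exact mul_ne_zero (neg_ne_zero.mpr hw0n) hw1n
      have gm : L * g1 ∈ nodalCurve F := by
        rw [mem_nodalCurve, eval_mul, eval_mul, hL0, hL1]
        linear_combination -hg'
      have gm0 : (L * g1).eval 0 ≠ 0 := by
        rw [eval_mul, hL0]
        exact mul_ne_zero (neg_ne_zero.mpr hw0n) hg10
      have hmm : ∀ p q : F[X], (p * q).natDegree ≤ p.natDegree + q.natDegree :=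
        fun p q => natDegree_mul_le
      have k3 := ih (w * L') q3m q30 (by have := hmm w L'; omega)
      have k2 := ih (L * L') q2m q20 (by have := hmm L L'; omega)
      have kg := ih (L * g1) gm gm0 (by have := hmm L g1; omega)
      have e : pu S ⟨g, hg⟩ h0 * pu S ⟨L * L', q2m⟩ q20
          = pu S ⟨w * L', q3m⟩ q30 * pu S ⟨L * g1, gm⟩ gm0 := by
        apply Units.ext
        rw [Units.val_mul, Units.val_mul, pu_val, pu_val, pu_val, pu_val, ← map_mul, ← map_mul]
        congr 1
        apply Subtype.ext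
        show g * (L * L') = w * L' * (L * g1)
        rw [hgw]
        ring
      rw [eq_mul_inv_of_mul_eq e]
      exact mul_mem (mul_mem k3 kg) (inv_mem k2)

theorem mem_closure_V3 [IsAlgClosed F] (x : Sˣ) :
    x ∈ Subgroup.closure {p : Sˣ | (p : S) ∈ V3 F S} := by
  obtain ⟨a, b, hab⟩ := IsLocalization.exists_mk'_eq (node F).primeCompl (x : S)
  have ha : (a : F[X]).eval 0 ≠ 0 := by
    have h1 := x.isUnit
    rw [← hab, IsLocalization.AtPrime.isUnit_mk'_iff S (node F), mem_primeCompl] at h1
    exact h1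
  have hb : ((b : nodalCurve F) : F[X]).eval 0 ≠ 0 := mem_primeCompl.mp b.2
  have e : x * pu S (b : nodalCurve F) hb = pu S a ha := by
    apply Units.ext
    rw [Units.val_mul, pu_val, pu_val, ← hab, IsLocalization.mk'_spec]
  rw [eq_mul_inv_of_mul_eq e]
  exact mul_mem (pu_mem_closure S _ (a : F[X]) a.2 ha le_rfl)
    (inv_mem (pu_mem_closure S _ ((b : nodalCurve F) : F[X]) (b : nodalCurve F).2 hb le_rfl))

end loc

end Pool.Agent.Helper83.Node
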