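import Mathlib
import Pool.Agent.Helper83.Node.Red
import Pool.Agent.Helper83.Node.Ring

/-!
# Torsion in the Milnor K-theory of the local ring of the nodal curve
-/

set_option autoImplicit false
open Function Polynomial Module

namespace Pool.Agent.Helper83.Node

section tors

variable {n : ℕ} {S : Type*} [CommRing S] {F : Type*} [Field F] [Infinite F] [Algebra F S]
  (ev : S →ₐ[F] F) (hev : ∀ s : S, ev s ≠ 0 → IsUnit s)

include hev in
theorem pr_swap {f : (Fin n → Sˣ) → ℚ}
    (hmul : ∀ (v : Fin n → Sˣ) (i : Fin n) (x y : Sˣ),
      f (update v i (x * y)) = f (update v i x) + f (update v i y))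
    {i j : Fin n} (hij : i ≠ j) (hst : ∀ (v : Fin n → Sˣ), (v i : S) + v j = 1 → f v = 0)
    (v : Fin n → Sˣ) : f (v ∘ Equiv.swap i j) = -f v := by
  have h := bil_anti (g := fun x y => f (update (update v i x) j y)) ev hev
    (fun x x' y => by
      rw [update_comm hij, hmul, update_comm hij.symm, update_comm hij.symm])
    (fun x y y' => hmul _ j y y')
    (fun x y hxy => hst _ (by
      rw [update_self, update_of_ne hij, update_self]; exact hxy)) (v j) (v i)
  have e1 : update (update v i (v j)) j (v i) = v ∘ Equiv.swap i j := by
    funext k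
    by_cases hk : k = j
    · subst hk; simp
    · by_cases hk' : k = i
      · subst hk'; simp [update_of_ne hij]
      · rw [update_of_ne hk, update_of_ne hk', comp_apply, Equiv.swap_apply_of_ne_of_ne hk' hk]
  have e2 : update (update v i (v i)) j (v j) = v := by simp
  rw [e1, e2] at h
  exact h

include hev in
/-- Steinberg relations for consecutive entries imply those for arbitrary entries -/
theorem st_all {f : (Fin n → Sˣ) → ℚ}
    (hmul : ∀ (v : Fin n → Sˣ) (i : Fin n) (x y : Sˣ),
      f (update v i (x * y)) = f (update v i x) + f (update v i y))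
    (hst : ∀ (v : Fin n → Sˣ) (i j : Fin n), (i : ℕ) + 1 = j → (v i : S) + v j = 1 → f v = 0)
    (v : Fin n → Sˣ) (i j : Fin n) (hij : i ≠ j) (h : (v i : S) + v j = 1) : f v = 0 := by
  have key : ∀ (d : ℕ) (v : Fin n → Sˣ) (i j : Fin n), (i : ℕ) + 1 + d = j →
      (v i : S) + v j = 1 → f v = 0 := by
    intro d
    induction d with
    | zero => exact fun v i j hj h => hst v i j hj h
    | succ d ih =>
      intro v i j hj h
      have hjn := j.2
      set l : Fin n := ⟨(j : ℕ) - 1, by omega⟩ with hl
      have hlj : (l : ℕ) + 1 = j := by simp only [hl]; omega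
      have hlne : l ≠ j := fun h => by
        have := congrArg Fin.val h
        omega
      have h1 : (i : ℕ) + 1 + d = l := by simp only [hl]; omega
      have hil : i ≠ l := fun h => by
        have := congrArg Fin.val h
        omega
      have hij : i ≠ j := fun h => by
        have := congrArg Fin.val h
        omega
      have h2 := ih (v ∘ Equiv.swap l j) i l h1 (by
        rw [comp_apply, comp_apply, Equiv.swap_apply_of_ne_of_ne hil hij, Equiv.swap_apply_left]
        exact h)
      rw [pr_swap ev hev hmul hlne (fun v hv => hst v l j hlj hv)] at h2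
      linarith
  rcases lt_or_gt_of_ne (fun h : (i : ℕ) = j => hij (Fin.ext h)) with hlt | hgt
  · exact key ((j : ℕ) - i - 1) v i j (by omega) h
  · exact key ((i : ℕ) - j - 1) v j i (by omega) (by rw [add_comm]; exact h)

include hev in
/-- If all rational valued symbols vanish, then the Milnor K-group is torsion. -/
theorem torsion_of_van (hvan : ∀ (φ : RSym n S) (v : Fin n → Sˣ), φ v = 0) (x : MilnorK n S) :
    ∃ N : ℕ, 0 < N ∧ N • x = 0 := by
  by_contra hcon
  push Not at hcon
  -- every homomorphism to `ℚ` vanishes
  have hzero : ∀ g : MilnorK n S →+ ℚ, g = 0 := by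
    intro g
    set f : (Fin n → Sˣ) → ℚ := fun v => g (QuotientAddGroup.mk (FreeAbelianGroup.of v)) with hf
    have hmul : ∀ (v : Fin n → Sˣ) (i : Fin n) (x y : Sˣ),
        f (update v i (x * y)) = f (update v i x) + f (update v i y) := by
      intro v i x y
      have h1 : (QuotientAddGroup.mk (FreeAbelianGroup.of (update v i (x * y))
          - FreeAbelianGroup.of (update v i x) - FreeAbelianGroup.of (update v i y)) :
          MilnorK n S) = 0 := by
        rw [QuotientAddGroup.eq_zero_iff]
        exact AddSubgroup.subset_closure (Or.inl ⟨v, i, x, y, rfl⟩)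
      have h2 := congrArg g h1
      rw [QuotientAddGroup.mk_sub, QuotientAddGroup.mk_sub, map_sub, map_sub, map_zero] at h2
      simp only [hf]
      linarith
    have hst : ∀ (v : Fin n → Sˣ) (i j : Fin n), (i : ℕ) + 1 = j → (v i : S) + v j = 1 →
        f v = 0 := by
      intro v i j hij hv
      have h1 : (QuotientAddGroup.mk (FreeAbelianGroup.of v) : MilnorK n S) = 0 := by
        rw [QuotientAddGroup.eq_zero_iff]
        exact AddSubgroup.subset_closure (Or.inr ⟨v, i, j, hij, hv, rfl⟩)
      simp only [hf]
      rw [h1, map_zero]
    have hall := hvan ⟨f, hmul, fun v i j hij hv => st_all ev hev hmul hst v i j hij hv⟩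
    apply QuotientAddGroup.addMonoidHom_ext
    apply FreeAbelianGroup.lift_ext
    intro v
    exact hall v
  -- but `ℚ` is injective
  have hinj : Injective (zmultiplesHom (MilnorK n S) x) := by
    rw [injective_iff_map_eq_zero]
    intro m hm
    rw [zmultiplesHom_apply] at hm
    by_contra hm0
    have h1 : (m.natAbs : ℤ) • x = 0 := by
      rcases Int.natAbs_eq m with h | h
      · rw [← h, hm]
      · have : (m.natAbs : ℤ) = -m := by omega
        rw [this, neg_smul, hm, neg_zero]
    rw [natCast_zsmul] at h1
    exact hcon m.natAbs (Int.natAbs_pos.mpr hm0) h1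
  obtain ⟨g, hg⟩ := (Module.Baer.of_divisible ℚ).extension_property_addMonoidHom _ hinj
    (Int.castAddHom ℚ)
  have h1 := DFunLike.congr_fun hg 1
  rw [hzero g] at h1
  simp at h1

end tors

noncomputable instance (F : Type*) [Field F] : Algebra (nodalCurve F) (NodeRing F) :=
  inferInstanceAs (Algebra (nodalCurve F) (Localization.AtPrime (node F)))

noncomputable instance (F : Type*) [Field F] : Algebra F (NodeRing F) :=
  inferInstanceAs (Algebra F (Localization.AtPrime (node F)))

instance (F : Type*) [Field F] : IsScalarTower F (nodalCurve F) (NodeRing F) :=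
  inferInstanceAs (IsScalarTower F (nodalCurve F) (Localization.AtPrime (node F)))

instance (F : Type*) [Field F] : IsLocalization.AtPrime (NodeRing F) (node F) :=
  inferInstanceAs (IsLocalization.AtPrime (Localization.AtPrime (node F)) (node F))

/-- If `F` is algebraically closed and all symbols in `n` variables on `F` vanish, then the Milnor
K-group of the local ring of the nodal curve is torsion in degree `n + 2`. -/
theorem torsion_node {n : ℕ} {F : Type*} [Field F] [IsAlgClosed F] (hF : Helper47.Par.Van n F)
    (x : MilnorK (n + 2) (NodeRing F)) : ∃ N : ℕ, 0 < N ∧ N • x = 0 := by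
  have : Infinite F := IsAlgClosed.instInfinite
  refine torsion_of_van (evN F (NodeRing F)) (isUnit_of_evN (NodeRing F)) ?_ x
  intro φ v
  exact van_ring (evN F (NodeRing F)) (isUnit_of_evN (NodeRing F)) (V3 F (NodeRing F))
    (finrank_V3 F (NodeRing F)) (one_mem_V3 F (NodeRing F)) (mem_closure_V3 (NodeRing F)) hF φ v

end Pool.Agent.Helper83.Node
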