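import Mathlib
import Pool.Agent.Helper47.Uni.Main
import Pool.Agent.Helper44.K4.Final
import Pool.Agent.Helper83.Node.Main

/-!
# Milnor K-theory of the local ring of the nodal curve

Let `F` be an algebraically closed field of transcendence degree at most `r` over a finite field,
and let `S` be the local ring at the node of the nodal curve over `F` (the affine line with the
points `0` and `1` glued).  Then the Milnor K-group `K_n^M(S)` is torsion for every
`n ≥ 2 * 3 ^ r + 2`, and for every `n ≥ 6` if `r ≤ 2`.

As `H^n(S, ℚ(n))` is generated by `K_n^M(S)` and contains the quotient of `H^(n-1)(F, ℚ(n))` by the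
products of `F^*` and `H^(n-2)(F, ℚ(n-1))`, this is a statement on the motivic cohomology of `F`
off the diagonal.

Sketch of the proof.
* The group of units of `S` is generated by the polynomials `f` of degree at most `3` with
  `f(0) = f(1) ≠ 0`: in a polynomial of larger degree one can cut out two of the roots.
* These polynomials lie in a space of dimension `3` over `F`, so any three of them and `1` are
  linearly dependent over `F`.
* The Steinberg relation with three terms, `{x, y, z} = 0` if `x + y + z = 1`, holds in
  `K_3^M(S)` modulo torsion, also if none of `1 - x`, `1 - y`, `1 - z` is a unit.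
* So `K_n^M(S)` is generated, modulo torsion, by the symbols with at most two entries outside of
  `F^*`, and `K_(n-2)^M(F)` is torsion.
-/

set_option autoImplicit false

universe u v

namespace Pool.Agent.Helper83.Node.Fallback

open Pool.Agent.Helper83.Node

/-- Let `F` be an algebraically closed extension of a finite field `k`, of transcendence degree at
most `r`, and let `S = NodeRing F` be the local ring of the nodal curve over `F` at the node.  Then
every element of `K_n^M(S)` has finite order as soon as `n ≥ 2 * 3 ^ r + 2`, or `r ≤ 2` and
`n ≥ 6`. -/
theorem result : ∀ (k : Type u) [Field k] [Finite k] (F : Type v) [Field F] [IsAlgClosed F]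
    [Algebra k F] (r n : ℕ), Algebra.trdeg k F ≤ r → (2 * 3 ^ r + 2 ≤ n ∨ (r ≤ 2 ∧ 6 ≤ n)) →
    ∀ z : MilnorK n (NodeRing F), ∃ N : ℕ, 0 < N ∧ N • z = 0 := by
  intro k _ _ F _ _ _ r n hr hn z
  obtain ⟨m, rfl⟩ : ∃ m, n = m + 2 := by
    refine ⟨n - 2, ?_⟩
    rcases hn with hn | ⟨_, hn⟩ <;> omega
  refine torsion_node ?_ z
  rcases hn with hn | ⟨hr2, hn⟩
  · exact Pool.Agent.Helper47.Uni.van_uniform (k := k) hr (by omega)
  · exact Pool.Agent.Helper44.K4.van_four (k := k) (F := F)
      (hr.trans (by exact_mod_cast hr2)) (by omega)

end Pool.Agent.Helper83.Node.Fallback
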